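import Pool.Agent.TH422.ITM.Asm

/-! The classification of the graphs `H` for which clique-width is bounded on the class of
`H`-induced-topological-minor-free graphs: exactly the induced subgraphs of the path `P₄`, of the
paw and of the diamond. -/

namespace Pool.Agent.Results.MP_d0d08e_co.Classification

open Pool.Agent.TH422.ITM Pool.Agent.H175R2

/-- For a finite graph `H`: there is a constant `c` such that every finite graph `G` which does not
contain `H` as an induced topological minor has clique-width at most `c`, if and only if `H` is
an induced subgraph of `P₄`, of the paw or of the diamond. -/
theorem result {W : Type} [Finite W] (H : SimpleGraph W) :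
    (∃ c : ℕ, ∀ (V : Type) [Finite V] (G : SimpleGraph V), ¬ IsITM H G → cliqueWidth G ≤ c) ↔
      H.IsIndContained (SimpleGraph.pathGraph 4) ∨ H.IsIndContained paw ∨
        H.IsIndContained diamond :=
  main H

end Pool.Agent.Results.MP_d0d08e_co.Classification
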